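import Mathlib
import Pool.Agent.Lib.MP_2166fc_an.Defs
import Pool.Agent.Lib.MP_2166fc_an.FM
import Pool.Agent.Lib.MP_2166fc_an.Calc
import Pool.Agent.Lib.MP_2166fc_an.PartA
import Pool.Agent.Lib.MP_2166fc_an.BallBranch
import Pool.Agent.Lib.MP_2166fc_an.PartBC

/-!
# Advection can lower the critical dimension of extremal solutions

We answer Q1 of MP_2166fc_an in the negative.  The nonlinearity is of type (S), namely
`f(t) = 1 - M (log (1 - t) + t)` with `M` large.  Without advection all extremal solutions in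
dimensions `n < 4` are classical, and the extremal solution on the unit ball of `ℝ^N` is singular
for some `N`; hence `f` has a critical dimension, and it is at least `4`.  With the advection
`c(x) = -x` on a large ball of `ℝ³` the extremal solution is singular.
-/

set_option autoImplicit false

open Set Filter Topology
open scoped ContDiff

namespace Pool.Agent.Results.MP_2166fc_an.AdvectionLowersCriticalDim

open Pool.Agent.Lib.MP_2166fc_an

lemma smoothBoundedDomain_ball {n : ℕ} {R : ℝ} (hR : 0 < R) :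
    SmoothBoundedDomain (Metric.ball (0 : Sp n) R) where
  isOpen := Metric.isOpen_ball
  isConnected := (convex_ball (0 : Sp n) R).isConnected ⟨0, by simp [hR]⟩
  isBounded := Metric.isBounded_ball
  smooth_boundary := by
    intro x hx
    rw [frontier_ball (0 : Sp n) hR.ne', mem_sphere_zero_iff_norm] at hx
    refine ⟨fun y => ‖y‖ ^ 2 - R ^ 2, (contDiff_norm_sq ℝ).sub contDiff_const, ?_, ?_⟩
    · intro h0
      have h1 : HasFDerivAt (fun y : Sp n => ‖y‖ ^ 2 - R ^ 2) ((2:ℝ) • innerSL ℝ x) x := by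
        have := ((hasStrictFDerivAt_norm_sq x).hasFDerivAt).sub_const (R ^ 2)
        refine this.congr_fderiv ?_
        ext v; simp
      rw [h1.fderiv] at h0
      have h2 := congrArg (fun L : Sp n →L[ℝ] ℝ => L x) h0
      have h3 : (2:ℝ) * ‖x‖ ^ 2 = 0 := by
        simpa [real_inner_self_eq_norm_sq] using h2
      rw [hx] at h3
      have : 0 < 2 * R ^ 2 := by positivity
      linarith
    · refine Eventually.of_forall fun y => ?_
      rw [mem_ball_zero_iff]
      constructor
      · intro h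
        have : ‖y‖ ^ 2 < R ^ 2 := pow_lt_pow_left₀ h (norm_nonneg y) (by norm_num)
        linarith
      · intro h
        have h1 : ‖y‖ ^ 2 < R ^ 2 := by linarith
        exact lt_of_pow_lt_pow_left₀ 2 hR.le h1

/-- The extremal solution is unique on the domain. -/
lemma extremal_unique {n : ℕ} {Ω : Set (Sp n)} {c : Sp n → Sp n} {f : ℝ → ℝ}
    {v w : Sp n → ℝ} (hv : IsExtremalSolution Ω c f v) (hw : IsExtremalSolution Ω c f w) :
    ∀ x ∈ Ω, v x = w x := by
  obtain ⟨l1, u1, h1⟩ := hv
  obtain ⟨l2, u2, h2⟩ := hw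
  have key : ∀ {a b : ℝ} {p q : ℝ → Sp n → ℝ} {s t : Sp n → ℝ}, IsBranch Ω c f a p s →
      IsBranch Ω c f b q t → a ≤ b := by
    intro a b p q s t hp hq
    by_contra hcon
    push Not at hcon
    obtain ⟨l, hl1, hl2⟩ := exists_between hcon
    exact hq.none_above l hl1 _ (hp.minimal l (hq.pos.trans hl1) hl2).1
  have hl : l1 = l2 := le_antisymm (key h1 h2) (key h2 h1)
  subst hl
  intro x hx
  have he : ∀ᶠ l in 𝓝[<] l1, u1 l x = u2 l x := by
    have hp : ∀ᶠ l in 𝓝[<] l1, 0 < l := nhdsWithin_le_nhds (lt_mem_nhds h1.pos)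
    filter_upwards [hp, self_mem_nhdsWithin] with l hl1 hl2
    have m1 := h1.minimal l hl1 hl2
    have m2 := h2.minimal l hl1 hl2
    exact le_antisymm (m1.2 _ m2.1 x hx) (m2.2 _ m1.1 x hx)
  exact tendsto_nhds_unique (h1.limit x hx) ((h2.limit x hx).congr' (he.mono fun l h => h.symm))

/-- **Theorem.** There is a nonlinearity `f` of type (S) that has a critical dimension `N > 3`
(without advection), and a smooth bounded domain `Ω` of `ℝ³` with a smooth bounded vector field
`c` such that the extremal solution of `-Δ u + c · ∇ u = λ f(u)` on `Ω` (it exists) is singular. -/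
theorem result :
    ∃ f : ℝ → ℝ, TypeS f ∧ ∃ N : ℕ, IsCriticalDimension f N ∧ 3 < N ∧
      ∃ (Ω : Set (Sp 3)) (c : Sp 3 → Sp 3), SmoothBoundedDomain Ω ∧ ContDiff ℝ ∞ c ∧
        (∃ B : ℝ, ∀ x ∈ closure Ω, ‖c x‖ ≤ B) ∧
        (∃ ustar : Sp 3 → ℝ, IsExtremalSolution Ω c f ustar) ∧
        ∀ ustar : Sp 3 → ℝ, IsExtremalSolution Ω c f ustar → ¬ IsClassical Ω ustar := by
  classical
  obtain ⟨M2, hM2, h2⟩ := partA 2 (by norm_num)
  obtain ⟨M3, hM3, h3⟩ := partA 3 (by norm_num)
  set M := max 1 (max M2 M3) with hM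
  have hM1 : 1 ≤ M := le_max_left _ _
  have hM0 : 0 < M := by linarith
  have hMM2 : M2 ≤ M := (le_max_left _ _).trans (le_max_right _ _)
  have hMM3 : M3 ≤ M := (le_max_right _ _).trans (le_max_right _ _)
  -- singular dimensions
  let P : ℕ → Prop := fun N => 2 ≤ N ∧ ∃ Ω : Set (Sp N), SmoothBoundedDomain Ω ∧
    ∃ ustar : Sp N → ℝ, IsExtremalSolution Ω 0 (fM M) ustar ∧ ¬ IsClassical Ω ustar
  have hex : ∃ N, P N := by
    obtain ⟨b, hb⟩ := exists_nat_ge (12 * M)
    have hdrift : drift (4 * b + 1) 0 = 0 := by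
      funext x; simp [drift]
    have hbr := isBranch_ball (m := 4 * b + 1) (k := 0) (R := 1) le_rfl one_pos hM0.le
    rw [hdrift] at hbr
    exact ⟨4 * b + 1 + 1, by omega, Metric.ball 0 1, smoothBoundedDomain_ball one_pos,
      uStar (4 * b + 1) 0 1 M, ⟨_, _, hbr⟩, partC hM1 b hb⟩
  have hcrit : IsCriticalDimension (fM M) (Nat.find hex) := by
    refine ⟨?_, (Nat.find_spec hex).2⟩
    intro n hn2 hnN Ω hΩ ustar hext
    have hnot := Nat.find_min hex hnN
    by_contra hcl
    exact hnot ⟨hn2, Ω, hΩ, ustar, hext, hcl⟩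
  have hN : 3 < Nat.find hex := by
    by_contra hle
    push Not at hle
    obtain ⟨hge2, Ω, hΩ, ustar, hext, hcl⟩ := Nat.find_spec hex
    have h23 : Nat.find hex = 2 ∨ Nat.find hex = 3 := by omega
    rcases h23 with h | h
    · generalize Nat.find hex = N at *
      subst h
      exact hcl (h2 M hMM2 Ω hΩ.isOpen hΩ.isBounded ustar hext)
    · generalize Nat.find hex = N at *
      subst h
      exact hcl (h3 M hMM3 Ω hΩ.isOpen hΩ.isBounded ustar hext)
  refine ⟨fM M, typeS_fM hM0, Nat.find hex, hcrit, hN, ?_⟩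
  obtain ⟨R, hR, hsing⟩ := partB hM1
  have hbr := isBranch_ball (m := 2) (k := 1) (R := R) zero_le_one hR hM0.le
  refine ⟨Metric.ball 0 R, drift 2 1, smoothBoundedDomain_ball hR, ?_, ?_, ?_, ?_⟩
  · have : drift 2 1 = fun x => -((1:ℝ) • x) := rfl
    rw [this]
    exact (contDiff_id.const_smul (1:ℝ)).neg
  · refine ⟨R, fun x hx => ?_⟩
    rw [closure_ball (0 : Sp 3) hR.ne', mem_closedBall_zero_iff] at hx
    simpa [drift] using hx
  · exact ⟨uStar 2 1 R M, ⟨_, _, hbr⟩⟩
  · intro ustar hext hcl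
    have huniq := extremal_unique hext ⟨_, _, hbr⟩
    obtain ⟨C, hC1, hC⟩ := hcl
    exact hsing ⟨C, hC1, fun x hx => by rw [← huniq x hx]; exact hC x hx⟩

end Pool.Agent.Results.MP_2166fc_an.AdvectionLowersCriticalDim
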